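import Pool.Agent.LOK.Main

/-!
# Left ordered groups with five generators in which every element is strongly distorted

For every function `φ : ℕ → ℕ` tending to infinity, however slowly, there is a nontrivial group
with a left-invariant total order, generated by at most five elements, in which for every finite
generating set `S` and every element `g` the word length of `g ^ n` is `o(n)`; it is even at most
`exp (C √(log n))` for all `n ≥ 2` and at most `φ n` for infinitely many `n`.

Any `φ` gives a positive answer to Q1 of MP_4f3965_al.

The group acts by order automorphisms on an ordered set of finite stacks of rational numbers.  Two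
generators shift neighbouring centres of `ℚ`, one pushes a new frame, one is a local bump, and the
last one is the limit of a recursion: at the centres of level `l` it stores a program that performs
the `K l`-th power of the word number `l`, clamped to the tile of that centre.  The program costs
`O(2 ^ (10 l))` letters while the exponent `K l` is arbitrary.
-/

set_option autoImplicit false

namespace Pool.Agent.Results.MP_4f3965_al.StronglyDistorted

open Filter Pool.Agent.LO.K

theorem result (φ : ℕ → ℕ) (hφ : Tendsto φ atTop atTop) :
    ∃ (G : Type) (_ : Group G) (_ : LinearOrder G),
      Nontrivial G ∧ (∀ f g h : G, g < h → f * g < f * h) ∧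
      (∃ S : Finset G, S.card ≤ 5 ∧ Subgroup.closure (S : Set G) = ⊤) ∧
      ∀ S : Finset G, Subgroup.closure (S : Set G) = ⊤ → ∀ g : G,
        Tendsto (fun n : ℕ => (wordLength S (g ^ n) : ℝ) / n) atTop (nhds 0) ∧
        (∃ C : ℝ, ∀ n : ℕ, 2 ≤ n →
          (wordLength S (g ^ n) : ℝ) ≤ Real.exp (C * √(Real.log n))) ∧
        ∀ N : ℕ, ∃ n, N ≤ n ∧ wordLength S (g ^ n) ≤ φ n :=
  Pool.Agent.LO.K.main φ hφ

end Pool.Agent.Results.MP_4f3965_al.StronglyDistorted
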